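import Pool.Agent.U902.QF.Main
import Pool.Agent.U737.MN.Fam

/-!
# Numbering the points of a large action; symmetric groups
-/

set_option autoImplicit false
set_option linter.unusedSectionVars false

open NumberField Filter Topology

namespace Pool.Agent.U902.QF

open Pool.Agent.TH444.ML (dsc nf_of_fd one_le_dsc)
open Pool.Agent.U737.MN (Gal Mid nc inp LargeAct largeAct_of gal_perm)

theorem transport {H P : Type} [Group H] [Finite H] [MulAction H P] [Finite P]
    [MulAction.IsPretransitive H P] [FaithfulSMul H P] {m : ℕ} (hP : Nat.card P = m)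
    (hL : LargeAct H P) : ∃ H' : Subgroup (Equiv.Perm (Fin m)),
      MulAction.IsPretransitive H' (Fin m) ∧ LargeAct H' (Fin m) ∧
      ∀ (K Ω : Type) [Field K] [Field Ω] [Algebra K Ω] (M : IntermediateField K Ω),
        M ∈ Gal K Ω H P → M ∈ Gal K Ω H' (Fin m) := by
  classical
  let f : P ≃ Fin m := Finite.equivFinOfCardEq hP
  let ρ : H →* Equiv.Perm (Fin m) :=
    { toFun := fun h => f.symm.trans ((MulAction.toPerm h).trans f)
      map_one' := by
        ext i
        simp
      map_mul' := fun a b => by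
        ext i
        simp [mul_smul] }
  have hρ : ∀ (h : H) (x : P), ρ h (f x) = f (h • x) := by
    intro h x
    simp [ρ]
  have hρ' : ∀ (h : H) (i : Fin m), ρ h i = f (h • f.symm i) := by
    intro h i
    rw [← hρ, Equiv.apply_symm_apply]
  have hinj : Function.Injective ρ := by
    intro a b hab
    refine FaithfulSMul.eq_of_smul_eq_smul (α := P) fun x => ?_
    apply f.injective
    rw [← hρ, ← hρ, hab]
  let E : H ≃* ρ.range := MonoidHom.ofInjective hinj
  have hE : ∀ h, ((E h : ρ.range) : Equiv.Perm (Fin m)) = ρ h := fun h => rfl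
  refine ⟨ρ.range, ⟨fun i j => ?_⟩, ?_, ?_⟩
  · obtain ⟨h, hh⟩ := MulAction.exists_smul_eq H (f.symm i) (f.symm j)
    refine ⟨E h, ?_⟩
    change ρ h i = j
    rw [hρ', hh, Equiv.apply_symm_apply]
  · obtain ⟨V, hV, hc⟩ := hL
    refine ⟨V.comap E.symm.toMonoidHom, ?_, ?_⟩
    · rw [eq_bot_iff]
      intro x hx
      rw [Subgroup.mem_bot]
      have h1 : E.symm x ∈ V.normalCore := by
        intro b
        have h2 := hx (E b)
        rw [Subgroup.mem_comap] at h2
        simpa using h2
      rw [hV, Subgroup.mem_bot] at h1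
      simpa using h1
    · have hi : (V.comap E.symm.toMonoidHom).index = V.index :=
        Subgroup.index_comap_of_surjective V E.symm.surjective
      have hcard : Nat.card ρ.range = Nat.card H := (Nat.card_congr E.toEquiv).symm
      rw [hi, hcard]
      have hm : Nat.card (Fin m) = Nat.card P := by rw [Nat.card_fin, hP]
      rw [hm]
      rcases hc with ⟨h1, x, hx⟩ | h1
      · refine Or.inl ⟨h1, f x, ?_⟩
        intro g hg
        rw [Subgroup.mem_comap]
        apply hx
        obtain ⟨h, rfl⟩ := E.surjective g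
        rw [MulAction.mem_stabilizer_iff] at hg ⊢
        have h2 : ρ h (f x) = f x := hg
        rw [hρ] at h2
        have h3 : E.symm.toMonoidHom (E h) = h := E.symm_apply_apply h
        rw [h3]
        exact f.injective h2
      · exact Or.inr h1
  · rintro K Ω _ _ _ M ⟨hfd, e, he⟩
    refine ⟨hfd, e.trans f, fun π => ?_⟩
    have h1 := he (f.trans (π.trans f.symm))
    constructor
    · rintro ⟨g, hg⟩
      obtain ⟨h, rfl⟩ := E.surjective g
      obtain ⟨σ, hσ⟩ := h1.1 ⟨h, fun x => by
        have h2 : π (f x) = ρ h (f x) := hg (f x)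
        simp only [Equiv.trans_apply]
        rw [h2, hρ, Equiv.symm_apply_apply]⟩
      refine ⟨σ, fun φ => ?_⟩
      have h3 := hσ φ
      simp only [Equiv.trans_apply] at h3 ⊢
      rw [h3, Equiv.apply_symm_apply]
    · rintro ⟨σ, hσ⟩
      obtain ⟨h, hh⟩ := h1.2 ⟨σ, fun φ => by
        have h3 := hσ φ
        simp only [Equiv.trans_apply] at h3 ⊢
        rw [← h3, Equiv.symm_apply_apply]⟩
      refine ⟨E h, fun i => ?_⟩
      change π i = ρ h i
      have h2 := hh (f.symm i)
      simp only [Equiv.trans_apply, Equiv.apply_symm_apply] at h2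
      rw [hρ', ← h2, Equiv.apply_symm_apply]

theorem sym_large {q : ℕ} (hq : 6 ≤ q) : LargeAct (Equiv.Perm (Fin q)) (Equiv.Perm (Fin q)) := by
  have hne : Nonempty (Fin q) := ⟨⟨0, by omega⟩⟩
  refine largeAct_of (Q := Fin q) (Or.inl ⟨⟨fun σ => σ ⟨0, by omega⟩, fun h x => rfl⟩, ?_⟩)
  rw [Nat.card_perm, Nat.card_fin]
  obtain ⟨j, rfl⟩ := Nat.exists_eq_add_of_le hq
  clear hq hne
  induction j with
  | zero => decide
  | succ j ih =>
    rw [show 6 + (j + 1) = (6 + j) + 1 by ring, Nat.factorial_succ]
    nlinarith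

theorem sym_gal (K : Type) [Field K] [NumberField K] {q : ℕ} (hq : 6 ≤ q) :
    ∃ (H' : Subgroup (Equiv.Perm (Fin q.factorial))),
      MulAction.IsPretransitive H' (Fin q.factorial) ∧ LargeAct H' (Fin q.factorial) ∧
      (Gal K (AlgebraicClosure K) H' (Fin q.factorial)).Nonempty := by
  have hcard : Nat.card (Equiv.Perm (Fin q)) = q.factorial := by
    rw [Nat.card_perm, Nat.card_fin]
  obtain ⟨H', h1, h2, h3⟩ := transport hcard (sym_large hq)
  refine ⟨H', h1, h2, ?_⟩
  obtain ⟨M, hM⟩ := inp.exist K (AlgebraicClosure K) (Equiv.Perm (Fin q)) (Equiv.Perm (Fin q))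
    (gal_perm K q)
  exact ⟨M, h3 K _ M hM⟩

end Pool.Agent.U902.QF
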