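import Pool.Agent.U737.MN.Done
import Pool.Agent.TH979.ML.Rel2

/-!
# Quadratic extensions of thin families of fields
-/

set_option autoImplicit false
set_option linter.unusedSectionVars false

open NumberField Filter Topology

namespace Pool.Agent.U902.QF

open Pool.Agent.TH444.ML (dsc QS AS nf_of_fd dsc_eq one_le_dsc fd_of_AS ncard_AS finite_AS)
open Pool.Agent.U737.MN (Gal Mid nc IsWr WrIff BadSmall inp)

theorem union_card {ι α : Type*} (B : ι → Set α) (hf : ∀ i, (B i).Finite)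
    (hs : Summable (fun i => ((B i).ncard : ℝ))) :
    (⋃ i, B i).Finite ∧ ((⋃ i, B i).ncard : ℝ) ≤ ∑' i, ((B i).ncard : ℝ) ∧
      ((∀ i j, i ≠ j → Disjoint (B i) (B j)) →
        ((⋃ i, B i).ncard : ℝ) = ∑' i, ((B i).ncard : ℝ)) := by
  classical
  have hfs : {i | (B i).Nonempty}.Finite := by
    have h := hs.tendsto_cofinite_zero.eventually (gt_mem_nhds (zero_lt_one (α := ℝ)))
    rw [Filter.eventually_cofinite] at h
    refine h.subset ?_
    intro i hi
    simp only [Set.mem_setOf_eq, not_lt]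
    have : 0 < (B i).ncard := (Set.ncard_pos (hf i)).2 hi
    exact_mod_cast this
  have hT : (⋃ i, B i) = ⋃ i ∈ hfs.toFinset, B i := by
    ext L
    simp only [Set.mem_iUnion, Set.Finite.mem_toFinset, Set.mem_setOf_eq, exists_prop]
    constructor
    · rintro ⟨i, hi⟩
      exact ⟨i, ⟨L, hi⟩, hi⟩
    · rintro ⟨i, -, hi⟩
      exact ⟨i, hi⟩
  have hTf : (⋃ i, B i).Finite := by
    rw [hT]
    exact Set.Finite.biUnion hfs.toFinset.finite_toSet (fun i _ => hf i)
  have hTb : hTf.toFinset = hfs.toFinset.biUnion (fun i => (hf i).toFinset) := by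
    ext L
    rw [Set.Finite.mem_toFinset, hT]
    simp only [Set.mem_iUnion, Finset.mem_biUnion, Set.Finite.mem_toFinset, exists_prop]
  have hts : ∑' i, ((B i).ncard : ℝ) = ((∑ i ∈ hfs.toFinset, (B i).ncard : ℕ) : ℝ) := by
    rw [tsum_eq_sum (s := hfs.toFinset)]
    · push_cast; rfl
    · intro i hi
      have : ¬ (B i).Nonempty := by
        intro h; exact hi (by simpa using h)
      rw [Set.not_nonempty_iff_eq_empty] at this
      rw [this]; simp
  have he : (⋃ i, B i).ncard = (hfs.toFinset.biUnion (fun i => (hf i).toFinset)).card := by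
    rw [Set.ncard_eq_toFinset_card _ hTf, hTb]
  have hc : ∀ i, (B i).ncard = ((hf i).toFinset).card := fun i =>
    Set.ncard_eq_toFinset_card _ (hf i)
  have hc' : ∑ i ∈ hfs.toFinset, (B i).ncard = ∑ i ∈ hfs.toFinset, ((hf i).toFinset).card :=
    Finset.sum_congr rfl fun i _ => hc i
  refine ⟨hTf, ?_, ?_⟩
  · rw [hts, he, hc']
    have := Finset.card_biUnion_le (s := hfs.toFinset) (t := fun i => (hf i).toFinset)
    exact_mod_cast this
  · intro hd
    rw [hts, he, hc', Finset.card_biUnion]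
    intro i _ j _ hij
    rw [Function.onFun, Finset.disjoint_left]
    intro L h1 h2
    rw [Set.Finite.mem_toFinset] at h1 h2
    exact Set.disjoint_left.1 (hd i j hij) h1 h2

section

variable {K Ω : Type} [Field K] [NumberField K] [Field Ω] [Algebra K Ω]

/-- the quadratic extensions of `M` -/
def QA (M : IntermediateField K Ω) (X : ℝ) : Set (IntermediateField K Ω) :=
  {L | M ≤ L ∧ Module.finrank K L = 2 * Module.finrank K M ∧ dsc L ≤ X}

/-- those with full normal closure -/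
def GA (M : IntermediateField K Ω) (X : ℝ) : Set (IntermediateField K Ω) :=
  {L | L ∈ QA M X ∧ nc L = 2 ^ Module.finrank K M * nc M}

/-- the others -/
def BA (M : IntermediateField K Ω) (X : ℝ) : Set (IntermediateField K Ω) :=
  {L | L ∈ QA M X ∧ nc L ≠ 2 ^ Module.finrank K M * nc M}

theorem dpos (M : IntermediateField K Ω) : 0 < dsc M := lt_of_lt_of_le one_pos (one_le_dsc M)

theorem mul_d (M : IntermediateField K Ω) (X : ℝ) : X * (1 / dsc M ^ 2) * dsc M ^ 2 = X := by
  have := (dpos M).ne'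
  field_simp

theorem qa_eq (M : IntermediateField K Ω) (X : ℝ) : QA M X = AS M (X * (1 / dsc M ^ 2)) := by
  unfold QA AS
  rw [mul_d]

theorem ba_eq (M : IntermediateField K Ω) (X : ℝ) :
    BA M X = {L : IntermediateField K Ω | M ≤ L ∧
      Module.finrank K L = 2 * Module.finrank K M ∧
      nc L ≠ 2 ^ Module.finrank K M * nc M ∧ dsc L ≤ X * (1 / dsc M ^ 2) * dsc M ^ 2} := by
  rw [mul_d]
  ext L
  exact ⟨fun h => ⟨h.1.1, h.1.2.1, h.2, h.1.2.2⟩, fun h => ⟨⟨h.1, h.2.1, h.2.2.2⟩, h.2.2.1⟩⟩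

theorem split (M : IntermediateField K Ω) (X : ℝ) :
    GA M X ∪ BA M X = QA M X ∧ Disjoint (GA M X) (BA M X) := by
  constructor
  · ext L
    constructor
    · rintro (h | h)
      · exact h.1
      · exact h.1
    · intro h
      by_cases hn : nc L = 2 ^ Module.finrank K M * nc M
      · exact Or.inl ⟨h, hn⟩
      · exact Or.inr ⟨h, hn⟩
  · rw [Set.disjoint_left]
    rintro L h1 h2
    exact h2.2 h1.2

variable [IsAlgClosure K Ω]

theorem lim_QA (M : IntermediateField K Ω) [FiniteDimensional K M] :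
    ∃ c : ℝ, 0 < c ∧ Tendsto (fun X : ℝ => ((QA M X).ncard : ℝ) / X) atTop (𝓝 c) := by
  have hnf : NumberField M := nf_of_fd M
  have hac : IsAlgClosed Ω := IsAlgClosure.isAlgClosed K
  obtain ⟨c, hc⟩ := inp.quadLim M Ω
  have hc0 : 0 ≤ c := by
    refine ge_of_tendsto hc ?_
    filter_upwards [eventually_ge_atTop (0 : ℝ)] with Y hY
    positivity
  have hc1 : c ≠ 0 := by
    intro h
    rw [h] at hc
    exact inp.quadPos M Ω hc
  have hcpos : 0 < c := lt_of_le_of_ne hc0 (Ne.symm hc1)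
  have hd0 : 0 < dsc M := dpos M
  have hdd : 0 < (1 / dsc M ^ 2 : ℝ) := by positivity
  have hsub : Tendsto (fun X : ℝ => X * (1 / dsc M ^ 2)) atTop atTop :=
    tendsto_id.atTop_mul_const hdd
  have h1 := (hc.comp hsub).mul_const (1 / dsc M ^ 2)
  refine ⟨c * (1 / dsc M ^ 2), by positivity, h1.congr fun X => ?_⟩
  simp only [Function.comp]
  rw [← ncard_AS, ← qa_eq, div_mul_eq_mul_div, mul_div_mul_right _ _ hdd.ne']

theorem lim_BA (M : IntermediateField K Ω) [FiniteDimensional K M] :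
    Tendsto (fun X : ℝ => ((BA M X).ncard : ℝ) / X) atTop (𝓝 0) := by
  have hd0 : 0 < dsc M := dpos M
  have hdd : 0 < (1 / dsc M ^ 2 : ℝ) := by positivity
  have hsub : Tendsto (fun X : ℝ => X * (1 / dsc M ^ 2)) atTop atTop :=
    tendsto_id.atTop_mul_const hdd
  have h1 := ((inp.badSmall K Ω M).comp hsub).mul_const (1 / dsc M ^ 2)
  rw [zero_mul] at h1
  refine h1.congr fun X => ?_
  simp only [Function.comp]
  rw [← ba_eq, div_mul_eq_mul_div, mul_div_mul_right _ _ hdd.ne']

theorem bound_QA (K Ω : Type) [Field K] [NumberField K] [Field Ω] [Algebra K Ω]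
    [IsAlgClosure K Ω] (m : ℕ) : ∃ C : ℝ, 0 ≤ C ∧ ∀ M : IntermediateField K Ω,
      FiniteDimensional K M → Module.finrank K M = m → ∀ X : ℝ, 0 < X →
      (QA M X).Finite ∧ ((QA M X).ncard : ℝ) ≤ C * X * (dsc M) ^ (-(1 / 4) : ℝ) := by
  have hac : IsAlgClosed Ω := IsAlgClosure.isAlgClosed K
  obtain ⟨C, hC⟩ := inp.quadUnif (Module.finrank ℚ K * m)
  refine ⟨max C 0, le_max_right _ _, ?_⟩
  intro M hfd hm X hX
  have hnf : NumberField M := nf_of_fd M
  have hdeg : Module.finrank ℚ M = Module.finrank ℚ K * m := by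
    rw [← hm, Module.finrank_mul_finrank ℚ K M]
  have hd0 : 0 < dsc M := dpos M
  have hY : 0 ≤ X * (1 / dsc M ^ 2) := by positivity
  have h2 := hC M Ω hdeg _ hY
  have hfin : (QA M X).Finite := by
    rw [qa_eq]
    exact finite_AS M _ h2.1
  refine ⟨hfin, ?_⟩
  have h3 := h2.2
  rw [← ncard_AS, ← qa_eq, ← dsc_eq M] at h3
  refine h3.trans ?_
  have h4 : dsc M ^ (7 / 4 : ℝ) * (dsc M ^ 2)⁻¹ = dsc M ^ (-(1 / 4) : ℝ) := by
    rw [← Real.rpow_natCast, ← Real.rpow_neg hd0.le, ← Real.rpow_add hd0]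
    norm_num
  have h5 : C * dsc M ^ (7 / 4 : ℝ) * (X * (1 / dsc M ^ 2)) =
      C * (X * dsc M ^ (-(1 / 4) : ℝ)) := by
    rw [← h4]
    ring
  rw [h5]
  have h6 : C * (X * dsc M ^ (-(1 / 4) : ℝ)) ≤ max C 0 * (X * dsc M ^ (-(1 / 4) : ℝ)) := by
    apply mul_le_mul_of_nonneg_right (le_max_left _ _)
    positivity
  refine h6.trans (le_of_eq ?_)
  ring

end

end Pool.Agent.U902.QF
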