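import Pool.Agent.U902.QF.Uniq

/-!
# The count of the quadratic extensions of a thin family
-/

set_option autoImplicit false
set_option linter.unusedSectionVars false

open NumberField Filter Topology

namespace Pool.Agent.U902.QF

open Pool.Agent.TH444.ML (dsc nf_of_fd one_le_dsc)
open Pool.Agent.U737.MN (Gal Mid nc inp LargeAct summable_of_large)

section

variable {K Ω : Type} [Field K] [NumberField K] [Field Ω] [Algebra K Ω]

/-- quadratic extensions of the fields in `S` -/
def U (S : Set (IntermediateField K Ω)) (X : ℝ) : Set (IntermediateField K Ω) :=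
  {L | ∃ M ∈ S, L ∈ QA M X}

/-- the ones with small group -/
def W (S : Set (IntermediateField K Ω)) (X : ℝ) : Set (IntermediateField K Ω) :=
  {L | ∃ M ∈ S, L ∈ QA M X ∧ ¬ Wreath M L}

/-- all extensions of degree `n` -/
def NF (K Ω : Type) [Field K] [NumberField K] [Field Ω] [Algebra K Ω] (n : ℕ) (X : ℝ) :
    Set (IntermediateField K Ω) :=
  {L | Module.finrank K L = n ∧ dsc L ≤ X}

theorem fd_of {m : ℕ} (hm : 0 < m) {M : IntermediateField K Ω} (h : Module.finrank K M = m) :
    FiniteDimensional K M := FiniteDimensional.of_finrank_pos (by omega)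

variable [IsAlgClosure K Ω]

theorem fam {m : ℕ} (hm : 0 < m) (S : Set (IntermediateField K Ω))
    (hS : ∀ M ∈ S, Module.finrank K M = m)
    (hsum : Summable (fun M : S => (dsc M.1) ^ (-(1 / 4) : ℝ))) (δ : IntermediateField K Ω → ℝ)
    (hδ : ∀ M ∈ S, Tendsto (fun X : ℝ => ((QA M X).ncard : ℝ) / X) atTop (𝓝 (δ M))) :
    Summable (fun M : S => δ M.1) ∧ (∀ X : ℝ, 0 < X → (U S X).Finite) ∧
    Tendsto (fun X : ℝ => ((U S X).ncard : ℝ) / X) atTop (𝓝 (∑' M : S, δ M.1)) ∧
    Tendsto (fun X : ℝ => ((W S X).ncard : ℝ) / X) atTop (𝓝 0) := by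
  classical
  obtain ⟨C, hC0, hC⟩ := bound_QA K Ω m
  have hfd : ∀ M : S, FiniteDimensional K M.1 := fun M => fd_of hm (hS M.1 M.2)
  have hB : ∀ (M : S) (X : ℝ), 0 < X → (QA M.1 X).Finite ∧
      ((QA M.1 X).ncard : ℝ) ≤ C * X * (dsc M.1) ^ (-(1 / 4) : ℝ) :=
    fun M X hX => hC M.1 (hfd M) (hS M.1 M.2) X hX
  have hsum' : Summable (fun M : S => C * (dsc M.1) ^ (-(1 / 4) : ℝ)) := hsum.mul_left C
  -- a general comparison
  have gen : ∀ (B : IntermediateField K Ω → ℝ → Set (IntermediateField K Ω)),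
      (∀ M X, B M X ⊆ QA M X) →
      (∀ X, 0 < X → Summable (fun M : S => ((B M.1 X).ncard : ℝ))) ∧
      ∀ (γ : IntermediateField K Ω → ℝ),
        (∀ M ∈ S, Tendsto (fun X : ℝ => ((B M X).ncard : ℝ) / X) atTop (𝓝 (γ M))) →
        Tendsto (fun X : ℝ => (∑' M : S, ((B M.1 X).ncard : ℝ)) / X) atTop
          (𝓝 (∑' M : S, γ M.1)) := by
    intro B hBQ
    have hle : ∀ (M : S) (X : ℝ), 0 < X →
        ((B M.1 X).ncard : ℝ) ≤ C * X * (dsc M.1) ^ (-(1 / 4) : ℝ) := by
      intro M X hX
      refine le_trans ?_ (hB M X hX).2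
      exact_mod_cast Set.ncard_le_ncard (hBQ M.1 X) (hB M X hX).1
    refine ⟨fun X hX => ?_, fun γ hγ => ?_⟩
    · refine Summable.of_nonneg_of_le (fun M => by positivity) (fun M => hle M X hX) ?_
      have : (fun M : S => C * X * (dsc M.1) ^ (-(1 / 4) : ℝ)) =
          fun M : S => X * (C * (dsc M.1) ^ (-(1 / 4) : ℝ)) := by
        funext M; ring
      rw [this]
      exact hsum'.mul_left X
    · have h := tendsto_tsum_of_dominated_convergence (𝓕 := atTop)
        (f := fun (X : ℝ) (M : S) => ((B M.1 X).ncard : ℝ) / X)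
        (g := fun M : S => γ M.1) hsum' (fun M => hγ M.1 M.2) (by
          filter_upwards [eventually_gt_atTop (0 : ℝ)] with X hX M
          rw [Real.norm_of_nonneg (by positivity), div_le_iff₀ hX]
          have := hle M X hX
          linarith)
      refine h.congr' ?_
      filter_upwards with X
      rw [tsum_div_const]
  have gQ := gen QA (fun _ _ => subset_rfl)
  have gG := gen GA (fun _ _ _ h => h.1)
  have gB := gen BA (fun _ _ _ h => h.1)
  have hb : ∀ M ∈ S, Tendsto (fun X : ℝ => ((BA M X).ncard : ℝ) / X) atTop (𝓝 ((fun _ => 0) M)) := by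
    intro M hM
    have := hfd ⟨M, hM⟩
    exact lim_BA M
  have hg : ∀ M ∈ S, Tendsto (fun X : ℝ => ((GA M X).ncard : ℝ) / X) atTop (𝓝 (δ M)) := by
    intro M hM
    have := hfd ⟨M, hM⟩
    have h1 := (hδ M hM).sub (lim_BA M)
    rw [sub_zero] at h1
    refine h1.congr' ?_
    filter_upwards [eventually_gt_atTop (0 : ℝ)] with X hX
    obtain ⟨h2, h3⟩ := split M X
    have hf := (hB ⟨M, hM⟩ X hX).1
    have h4 : (GA M X).ncard + (BA M X).ncard = (QA M X).ncard := by
      rw [← Set.ncard_union_eq h3 (hf.subset fun L h => h.1) (hf.subset fun L h => h.1), h2]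
    rw [← h4]
    push_cast
    ring
  have lQ := gQ.2 δ hδ
  have lG := gG.2 δ hg
  have lB := gB.2 (fun _ => 0) hb
  rw [tsum_zero] at lB
  have hU : ∀ X, U S X = ⋃ M : S, QA M.1 X := by
    intro X
    ext L
    simp only [Set.mem_iUnion]
    exact ⟨fun ⟨M, hM, h⟩ => ⟨⟨M, hM⟩, h⟩, fun ⟨M, h⟩ => ⟨M.1, M.2, h⟩⟩
  have hfinU : ∀ X : ℝ, 0 < X → (U S X).Finite := fun X hX => by
    rw [hU]
    exact (union_card _ (fun M => (hB M X hX).1) (gQ.1 X hX)).1
  have hup : ∀ X : ℝ, 0 < X → ((U S X).ncard : ℝ) ≤ ∑' M : S, ((QA M.1 X).ncard : ℝ) := by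
    intro X hX
    rw [hU]
    exact (union_card _ (fun M => (hB M X hX).1) (gQ.1 X hX)).2.1
  have hlo : ∀ X : ℝ, 0 < X → ∑' M : S, ((GA M.1 X).ncard : ℝ) ≤ ((U S X).ncard : ℝ) := by
    intro X hX
    have h1 := (union_card (fun M : S => GA M.1 X)
      (fun M => (hB M X hX).1.subset fun L h => h.1) (gG.1 X hX)).2.2 (by
        intro M M' hMM
        rw [Set.disjoint_left]
        intro L h1 h2
        have := hfd M
        exact hMM (Subtype.ext (uniq h1.1.1 h1.1.2.1 h1.2 h2.1.1 h2.1.2.1)))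
    rw [← h1]
    have h2 : (⋃ M : S, GA M.1 X) ⊆ U S X := by
      intro L hL
      simp only [Set.mem_iUnion] at hL
      obtain ⟨M, hM⟩ := hL
      exact ⟨M.1, M.2, hM.1⟩
    exact_mod_cast Set.ncard_le_ncard h2 (hfinU X hX)
  have hW : ∀ X : ℝ, 0 < X → ((W S X).ncard : ℝ) ≤ ∑' M : S, ((BA M.1 X).ncard : ℝ) := by
    intro X hX
    have h1 := union_card (fun M : S => BA M.1 X)
      (fun M => (hB M X hX).1.subset fun L h => h.1) (gB.1 X hX)
    refine le_trans ?_ h1.2.1
    have h2 : W S X ⊆ ⋃ M : S, BA M.1 X := by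
      rintro L ⟨M, hM, h3, h4⟩
      have := hfd ⟨M, hM⟩
      simp only [Set.mem_iUnion]
      exact ⟨⟨M, hM⟩, h3, fun h5 => h4 (wreath h3.1 h3.2.1 h5)⟩
    exact_mod_cast Set.ncard_le_ncard h2 h1.1
  refine ⟨?_, hfinU, ?_, ?_⟩
  · refine Summable.of_nonneg_of_le (fun M => ?_) (fun M => ?_) hsum'
    · refine ge_of_tendsto (hδ M.1 M.2) ?_
      filter_upwards [eventually_gt_atTop (0 : ℝ)] with X hX
      positivity
    · refine le_of_tendsto (hδ M.1 M.2) ?_
      filter_upwards [eventually_gt_atTop (0 : ℝ)] with X hX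
      rw [div_le_iff₀ hX]
      have := (hB M X hX).2
      linarith
  · refine tendsto_of_tendsto_of_tendsto_of_le_of_le' lG lQ ?_ ?_
    · filter_upwards [eventually_gt_atTop (0 : ℝ)] with X hX
      exact div_le_div_of_nonneg_right (hlo X hX) hX.le
    · filter_upwards [eventually_gt_atTop (0 : ℝ)] with X hX
      exact div_le_div_of_nonneg_right (hup X hX) hX.le
  · refine tendsto_of_tendsto_of_tendsto_of_le_of_le' tendsto_const_nhds lB ?_ ?_
    · filter_upwards [eventually_gt_atTop (0 : ℝ)] with X hX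
      positivity
    · filter_upwards [eventually_gt_atTop (0 : ℝ)] with X hX
      exact div_le_div_of_nonneg_right (hW X hX) hX.le

theorem finite_NF {n : ℕ} (hn : 0 < n) (X : ℝ) : (NF K Ω n X).Finite := by
  obtain ⟨C, hC⟩ := Pool.Agent.TH979.J3100.hermiteRel K Ω n
  refine (hC (max X 1) (le_max_right _ _)).1.subset ?_
  rintro L ⟨h1, h2⟩
  exact ⟨FiniteDimensional.of_finrank_pos (by omega), h1, h2.trans (le_max_left _ _)⟩

theorem U_sub {m : ℕ} (S : Set (IntermediateField K Ω)) (hS : ∀ M ∈ S, Module.finrank K M = m)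
    (X : ℝ) : U S X ⊆ NF K Ω (2 * m) X := by
  rintro L ⟨M, hM, h⟩
  exact ⟨by rw [h.2.1, hS M hM], h.2.2⟩

/-- the lower bound for all extensions of degree `2 m` -/
theorem total {m : ℕ} (hm : 0 < m) (δ : IntermediateField K Ω → ℝ)
    (hδ : ∀ M : IntermediateField K Ω, Module.finrank K M = m →
      Tendsto (fun X : ℝ => ((QA M X).ncard : ℝ) / X) atTop (𝓝 (δ M))) (c : ℝ)
    (hc : ∃ᶠ X : ℝ in atTop, ((NF K Ω (2 * m) X).ncard : ℝ) ≤ c * X) :
    Summable (fun M : {M : IntermediateField K Ω // Module.finrank K M = m} => δ M.1) ∧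
    ∑' M : {M : IntermediateField K Ω // Module.finrank K M = m}, δ M.1 ≤ c := by
  classical
  have h0 : ∀ M : {M : IntermediateField K Ω // Module.finrank K M = m}, 0 ≤ δ M.1 := by
    intro M
    refine ge_of_tendsto (hδ M.1 M.2) ?_
    filter_upwards [eventually_gt_atTop (0 : ℝ)] with X hX
    positivity
  have key : ∀ F : Finset {M : IntermediateField K Ω // Module.finrank K M = m},
      ∑ M ∈ F, δ M.1 ≤ c := by
    intro F
    by_contra hlt
    push Not at hlt
    let F' : Finset (IntermediateField K Ω) := F.map ⟨Subtype.val, Subtype.val_injective⟩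
    have hS : ∀ M ∈ (F' : Set (IntermediateField K Ω)), Module.finrank K M = m := by
      intro M hM
      simp only [F', Finset.coe_map, Set.mem_image, Function.Embedding.coeFn_mk] at hM
      obtain ⟨x, -, rfl⟩ := hM
      exact x.2
    obtain ⟨-, hfin, hlim, -⟩ := fam hm (F' : Set (IntermediateField K Ω)) hS
      (summable_of_finite_support (Set.toFinite _)) δ (fun M hM => hδ M (hS M hM))
    have e : ∑' M : (F' : Set (IntermediateField K Ω)), δ M.1 = ∑ M ∈ F, δ M.1 := by
      rw [Finset.tsum_subtype' F' δ, Finset.sum_map]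
      rfl
    rw [e] at hlim
    apply hc
    filter_upwards [hlim.eventually (lt_mem_nhds hlt), eventually_gt_atTop (0 : ℝ)] with X h1 hX
    rw [lt_div_iff₀ hX] at h1
    have h2 : ((U (F' : Set (IntermediateField K Ω)) X).ncard : ℝ) ≤
        ((NF K Ω (2 * m) X).ncard : ℝ) := by
      exact_mod_cast Set.ncard_le_ncard (U_sub _ hS X) (finite_NF (by omega) X)
    exact not_le.2 (lt_of_lt_of_le h1 h2)
  have hs := summable_of_sum_le h0 key
  exact ⟨hs, hs.tsum_le_of_sum_le key⟩

theorem total_lim {m : ℕ} (hm : 0 < m) (δ : IntermediateField K Ω → ℝ)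
    (hδ : ∀ M : IntermediateField K Ω, Module.finrank K M = m →
      Tendsto (fun X : ℝ => ((QA M X).ncard : ℝ) / X) atTop (𝓝 (δ M))) (c : ℝ)
    (hc : Tendsto (fun X : ℝ => ((NF K Ω (2 * m) X).ncard : ℝ) / X) atTop (𝓝 c)) :
    Summable (fun M : {M : IntermediateField K Ω // Module.finrank K M = m} => δ M.1) ∧
    ∑' M : {M : IntermediateField K Ω // Module.finrank K M = m}, δ M.1 ≤ c := by
  have h : ∀ c' : ℝ, c < c' →
      Summable (fun M : {M : IntermediateField K Ω // Module.finrank K M = m} => δ M.1) ∧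
      ∑' M : {M : IntermediateField K Ω // Module.finrank K M = m}, δ M.1 ≤ c' := by
    intro c' hc'
    refine total hm δ hδ c' (Eventually.frequently ?_)
    filter_upwards [hc.eventually (gt_mem_nhds hc'), eventually_gt_atTop (0 : ℝ)] with X h1 hX
    rw [div_lt_iff₀ hX] at h1
    exact h1.le
  exact ⟨(h (c + 1) (by linarith)).1, le_of_forall_gt_imp_ge_of_dense fun c' hc' => (h c' hc').2⟩

end

section

variable (K : Type) [Field K] [NumberField K]

/-- the fields whose group is one of finitely many groups with large action -/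
theorem large_sum {m : ℕ} (hm : 0 < m) (T : Set (Subgroup (Equiv.Perm (Fin m))))
    (hT : ∀ H ∈ T, MulAction.IsPretransitive H (Fin m) ∧ LargeAct H (Fin m)) :
    Summable (fun M : {M : IntermediateField K (AlgebraicClosure K) |
      ∃ H ∈ T, M ∈ Gal K (AlgebraicClosure K) H (Fin m)} => (dsc M.1) ^ (-(1 / 4) : ℝ)) := by
  classical
  have hne : Nonempty (Fin m) := ⟨⟨0, hm⟩⟩
  let g : IntermediateField K (AlgebraicClosure K) → ℝ := fun M => (dsc M) ^ (-(1 / 4) : ℝ)
  have hg : ∀ M, 0 ≤ g M := fun M => Real.rpow_nonneg (dpos M).le _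
  have h1 : ∀ H ∈ T, Summable ((Gal K (AlgebraicClosure K) H (Fin m)).indicator g) := by
    intro H hH
    obtain ⟨i1, h2⟩ := hT H hH
    have i2 : FaithfulSMul H (Fin m) := ⟨fun {a b} hab => Subtype.ext (Equiv.ext fun x => hab x)⟩
    exact summable_subtype_iff_indicator.1 (summable_of_large inp K H (Fin m) h2)
  have hTf : T.Finite := Set.toFinite T
  have h2 : Summable (fun M => ∑ H ∈ hTf.toFinset,
      (Gal K (AlgebraicClosure K) H (Fin m)).indicator g M) :=
    summable_sum fun H hH => h1 H ((Set.Finite.mem_toFinset hTf).1 hH)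
  refine (summable_subtype_iff_indicator (f := g)).2
    (Summable.of_nonneg_of_le (fun M => ?_) (fun M => ?_) h2)
  · exact Set.indicator_nonneg (fun M _ => hg M) M
  · by_cases hM : M ∈ {M : IntermediateField K (AlgebraicClosure K) |
      ∃ H ∈ T, M ∈ Gal K (AlgebraicClosure K) H (Fin m)}
    · rw [Set.indicator_of_mem hM]
      obtain ⟨H, hH, hMH⟩ := hM
      have h3 : (Gal K (AlgebraicClosure K) H (Fin m)).indicator g M = g M :=
        Set.indicator_of_mem hMH g
      refine le_trans (le_of_eq h3.symm) (Finset.single_le_sum (f := fun H =>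
        (Gal K (AlgebraicClosure K) H (Fin m)).indicator g M)
        (fun H _ => Set.indicator_nonneg (fun M _ => hg M) M)
        ((Set.Finite.mem_toFinset hTf).2 hH))
    · rw [Set.indicator_of_notMem hM]
      exact Finset.sum_nonneg fun H _ => Set.indicator_nonneg (fun M _ => hg M) M

end

end Pool.Agent.U902.QF
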