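import Pool.Agent.U902.QF.Fam

/-!
# The Galois group of a generic quadratic extension, uniqueness of the quadratic subfield
-/

set_option autoImplicit false
set_option linter.unusedSectionVars false

open NumberField Filter Topology

namespace Pool.Agent.U902.QF

open Pool.Agent.TH444.ML (dsc nf_of_fd)
open Pool.Agent.U737.MN (Gal Mid nc IsWr Wr2 WrIff inp)
open Pool.Agent.U261.MN (range_iff exists_conj)

section

variable {K Ω : Type} [Field K] [NumberField K] [Field Ω] [Algebra K Ω]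

/-- the action of the Galois group on the embeddings of `M` -/
def ac (M : IntermediateField K Ω) : (Ω ≃ₐ[K] Ω) →* Equiv.Perm (M →ₐ[K] Ω) where
  toFun σ :=
    { toFun := fun φ => σ.toAlgHom.comp φ
      invFun := fun φ => σ.symm.toAlgHom.comp φ
      left_inv := fun φ => by ext x; simp
      right_inv := fun φ => by ext x; simp }
  map_one' := by
    ext φ x
    rfl
  map_mul' σ τ := by
    ext φ x
    rfl

theorem ac_apply (M : IntermediateField K Ω) (σ : Ω ≃ₐ[K] Ω) (φ : M →ₐ[K] Ω) :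
    ac M σ φ = σ.toAlgHom.comp φ := rfl

/-- the Galois group of `M`, acting on the embeddings -/
def Gr (M : IntermediateField K Ω) : Subgroup (Equiv.Perm (M →ₐ[K] Ω)) := (ac M).range

theorem gr_smul (M : IntermediateField K Ω) (h : Gr M) (φ : M →ₐ[K] Ω) : h • φ = h.1 φ := rfl

theorem gr_faithful (M : IntermediateField K Ω) : FaithfulSMul (Gr M) (M →ₐ[K] Ω) :=
  ⟨fun {g h} hgh => Subtype.ext (Equiv.ext fun x => hgh x)⟩

variable [IsAlgClosure K Ω]

theorem gr_trans (M : IntermediateField K Ω) [FiniteDimensional K M] :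
    MulAction.IsPretransitive (Gr M) (M →ₐ[K] Ω) := by
  have : Algebra.IsAlgebraic K Ω := IsAlgClosure.isAlgebraic
  have : Normal K Ω := IsAlgClosure.normal K Ω
  have hext : ∀ φ : M →ₐ[K] Ω, ∃ σ : Ω ≃ₐ[K] Ω, ac M σ M.val = φ := by
    intro φ
    let f : Ω →ₐ[K] Ω := φ.liftNormal Ω
    have hf : Function.Bijective f := Algebra.IsAlgebraic.algHom_bijective f
    refine ⟨AlgEquiv.ofBijective f hf, ?_⟩
    ext x
    exact AlgHom.liftNormal_commutes φ Ω x
  refine ⟨fun φ ψ => ?_⟩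
  obtain ⟨σ, rfl⟩ := hext φ
  obtain ⟨τ, rfl⟩ := hext ψ
  refine ⟨⟨ac M (τ * σ⁻¹), τ * σ⁻¹, rfl⟩, ?_⟩
  change ac M (τ * σ⁻¹) (ac M σ M.val) = ac M τ M.val
  rw [← Equiv.Perm.mul_apply, ← map_mul, inv_mul_cancel_right]

theorem mem_gal (M : IntermediateField K Ω) [FiniteDimensional K M] :
    M ∈ Gal K Ω (Gr M) (M →ₐ[K] Ω) := by
  refine ⟨inferInstance, Equiv.refl _, fun π => ?_⟩
  constructor
  · rintro ⟨⟨_, σ, rfl⟩, hσ⟩
    exact ⟨σ, fun φ => (hσ φ).symm⟩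
  · rintro ⟨σ, hσ⟩
    exact ⟨⟨ac M σ, σ, rfl⟩, fun φ => (hσ φ).symm⟩

/-- `Gal(L/K) = C₂ ≀ Gal(M/K)` -/
def Wreath (M L : IntermediateField K Ω) : Prop :=
  ∃ e : (L →ₐ[K] Ω) ≃ (M →ₐ[K] Ω) × Bool, ∀ π : Equiv.Perm ((M →ₐ[K] Ω) × Bool),
    (∃ σ : Ω ≃ₐ[K] Ω, ∀ φ : L →ₐ[K] Ω, e (σ.toAlgHom.comp φ) = π (e φ)) ↔
      ∃ σ : Ω ≃ₐ[K] Ω, ∀ x : (M →ₐ[K] Ω) × Bool, (π x).1 = σ.toAlgHom.comp x.1

variable {M L : IntermediateField K Ω} [FiniteDimensional K M]

theorem isWr (hML : M ≤ L) (hdeg : Module.finrank K L = 2 * Module.finrank K M)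
    (hnc : nc L = 2 ^ Module.finrank K M * nc M) : IsWr K Ω (Gr M) (M →ₐ[K] Ω) L := by
  have hac : IsAlgClosed Ω := IsAlgClosure.isAlgClosed K
  have i1 : Finite (M →ₐ[K] Ω) := inferInstance
  have i2 : Nonempty (M →ₐ[K] Ω) := ⟨M.val⟩
  have i3 : Finite (Gr M) := inferInstance
  have i4 := gr_trans M
  have i5 := gr_faithful M
  have hpos : 0 < Module.finrank K M := Module.finrank_pos
  have hfd : FiniteDimensional K L := FiniteDimensional.of_finrank_pos (by omega)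
  exact ((inp.wrIff K Ω (Gr M) (M →ₐ[K] Ω) L).2 ⟨M, mem_gal M, hML, hfd, hdeg, hnc⟩).2

theorem wreath (hML : M ≤ L) (hdeg : Module.finrank K L = 2 * Module.finrank K M)
    (hnc : nc L = 2 ^ Module.finrank K M * nc M) : Wreath M L := by
  obtain ⟨e, he⟩ := isWr hML hdeg hnc
  refine ⟨e, fun π => ?_⟩
  rw [← he π]
  constructor
  · rintro ⟨⟨_, σ, rfl⟩, hσ⟩
    exact ⟨σ, hσ⟩
  · rintro ⟨σ, hσ⟩
    exact ⟨⟨ac M σ, σ, rfl⟩, hσ⟩

theorem uniq (hML : M ≤ L) (hdeg : Module.finrank K L = 2 * Module.finrank K M)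
    (hnc : nc L = 2 ^ Module.finrank K M * nc M) {M' : IntermediateField K Ω}
    (hML' : M' ≤ L) (hdeg' : Module.finrank K L = 2 * Module.finrank K M') : M = M' := by
  have : Algebra.IsAlgebraic K Ω := IsAlgClosure.isAlgebraic
  have : Normal K Ω := IsAlgClosure.normal K Ω
  have : IsGalois K Ω := ⟨⟩
  have hpos : 0 < Module.finrank K M := Module.finrank_pos
  have hfd : FiniteDimensional K L := FiniteDimensional.of_finrank_pos (by omega)
  obtain ⟨e, he⟩ := isWr hML hdeg hnc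
  have key := range_iff e he
  have hLL : L.val.fieldRange = L := by
    ext x
    constructor
    · rintro ⟨y, rfl⟩
      exact y.2
    · intro hx
      exact ⟨⟨x, hx⟩, rfl⟩
  have huniq : ∀ φ ψ : L →ₐ[K] Ω, φ.fieldRange = L → ψ.fieldRange = L → φ ≠ L.val →
      ψ ≠ L.val → φ = ψ := by
    intro φ ψ h1 h2 h3 h4
    have a1 := (key φ L.val).1 (h1.trans hLL.symm)
    have a2 := (key ψ L.val).1 (h2.trans hLL.symm)
    have b1 : (e φ).2 ≠ (e L.val).2 := fun h => h3 (e.injective (Prod.ext a1 h))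
    have b2 : (e ψ).2 ≠ (e L.val).2 := fun h => h4 (e.injective (Prod.ext a2 h))
    apply e.injective
    refine Prod.ext (a1.trans a2.symm) ?_
    revert b1 b2
    cases (e φ).2 <;> cases (e ψ).2 <;> cases (e L.val).2 <;> simp
  obtain ⟨φ, h1, h2, h3⟩ := exists_conj L M hML hdeg
  obtain ⟨ψ, h1', h2', h3'⟩ := exists_conj L M' hML' hdeg'
  have h4 : φ = ψ := huniq φ ψ h1 h1' h2 h2'
  subst h4
  ext x
  constructor
  · intro hx
    exact (h3' ⟨x, hML hx⟩).1 ((h3 ⟨x, hML hx⟩).2 hx)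
  · intro hx
    exact (h3 ⟨x, hML' hx⟩).1 ((h3' ⟨x, hML' hx⟩).2 hx)

end

end Pool.Agent.U902.QF
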